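import Pool.Agent.Helper54.DI.StmtsB

namespace Pool.Agent.Helper25.DI

open Finset Filter Topology Pool.Agent.Helper54.ETR Pool.Agent.Helper54.Poly Pool.Agent.Helper54.DI

/-- the gates of the gate system, as lists of symbols -/
def gatesK (n : ℕ) (l : List Tok) : List (List Tok) :=
  (gfK n l ++ [oneK (n + 1)]) ++ [addK n n n]

theorem gatesK_eq (t : Term) (S : List Term) :
    (gateSys t S).map Term.toks = gatesK (S.length + 1) (conj t S).toks := by
  rw [gateSys, gatesK, gfK_eq, List.map_append, List.map_append]
  rfl

/-- the list of gates of a string -/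
def ekF (u : List Bool) : List (List Tok) :=
  if (tk u).1.isEmpty && isForm (astate A2 0 (tk u).2) then
    gatesK (nEq (tk u).2.length) (redK (tk u).2)
  else (gateSys badT []).map Term.toks

theorem PTekF : PT ekF := by
  have hk := (PTtk (PT.id (α := List Bool))).snd
  have hN := PT.length hk
  have hm := PTlinN hN 2 1
  have hn : PT (fun x : List Bool => nEq (tk x).2.length) :=
    PT.succ (PT.add (PTzz hm (PTpM0 hN) (PTpM1 hN)) hm)
  have hg : PT (fun x : List Bool => gatesK (nEq (tk x).2.length) (redK (tk x).2)) :=
    PT.append (PT.append (PTgfK hn (PTredK hk)) (PT.lcons (PToneK (PT.succ hn)) (PT.const [])))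
      (PT.lcons (PTaddK hn hn hn) (PT.const []))
  exact PT.ite (PTisValid PT.id) hg (PT.const _)

theorem st_EK : ST_EK := by
  refine ⟨ekF, PTekF, ?_⟩
  intro u
  by_cases h : ((tk u).1.isEmpty && isForm (astate A2 0 (tk u).2)) = true
  · have h0 := h
    rw [Bool.and_eq_true, List.isEmpty_iff, isForm_iff] at h
    obtain ⟨h1, φ, h2⟩ := h
    have hu : u = φ.code := (decode_iff u φ).2 ⟨h1, h2⟩
    have hts : (tk u).2 = φ.toks := by rw [hu, Form.code, tk_complete]
    have hlen : (mainSys φ).length = nEq φ.toks.length := by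
      unfold mainSys nEq
      rw [sysT_length]
    obtain ⟨t, S, hS⟩ : ∃ t S, t :: S = mainSys φ := by
      cases h3 : mainSys φ with
      | nil =>
        rw [h3] at hlen
        simp [nEq] at hlen
      | cons t S => exact ⟨t, S, rfl⟩
    have hSl : S.length + 1 = nEq φ.toks.length := by
      rw [← hlen, ← hS, List.length_cons]
    have hr : Regular (t :: S) := by rw [hS]; exact mainSys_regular φ
    refine ⟨gateSys t S, ?_, gateSys_basic t S, (gate_regular hr).below, ?_⟩
    · unfold ekF
      rw [if_pos h0, hts, gatesK_eq, ← redK_eq φ t S hS, hSl]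
    · rw [← gate_real hr, hS, ← mainSys_iff]
      constructor
      · rintro ⟨ψ, hψ, x, hx⟩
        have : ψ = φ := code_injective (hψ.symm.trans hu)
        subst this
        exact ⟨x, hx⟩
      · rintro ⟨x, hx⟩
        exact ⟨φ, hu, x, hx⟩
  · refine ⟨gateSys badT [], ?_, gateSys_basic _ _, (gate_regular bad_regular).below, ?_⟩
    · unfold ekF
      rw [if_neg h]
    · rw [← gate_real bad_regular]
      constructor
      · rintro ⟨φ, hφ, -⟩
        exfalso
        apply h
        have h1 := (decode_iff u φ).1 hφ
        rw [Bool.and_eq_true, List.isEmpty_iff, isForm_iff]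
        exact ⟨h1.1, φ, h1.2⟩
      · rintro ⟨x, hx⟩
        exact absurd hx (bad_real x)

end Pool.Agent.Helper25.DI
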